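import Pool.Agent.MP5400b1.Codes
import Pool.Agent.MP5400b1.Table

set_option autoImplicit false

/-! The finite check behind the Schur expansion. -/

namespace Pool.Agent.MP5400b1

/-- Formal combinations: lists of (code, coefficient). -/
abbrev FC : Type := List (ℕ × ℕ)

/-- Merge of two sorted formal combinations (with fuel). -/
def mg : ℕ → FC → FC → FC
  | 0, a, b => a ++ b
  | _ + 1, [], b => b
  | _ + 1, p :: a, [] => p :: a
  | f + 1, p :: a, q :: b =>
    bif Nat.blt p.1 q.1 then p :: mg f a (q :: b)
    else bif Nat.blt q.1 p.1 then q :: mg f (p :: a) b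
    else (p.1, p.2 + q.2) :: mg f a b

/-- One pass of pairwise merging. -/
def mgPass : List FC → List FC
  | [] => []
  | [a] => [a]
  | a :: b :: l => mg 2000 a b :: mgPass l

/-- Merge all. -/
def mgAll : ℕ → List FC → FC
  | 0, l => l.flatten
  | f + 1, l => match l with
    | [] => []
    | [a] => a
    | a :: b :: l => mgAll f (mgPass (a :: b :: l))

/-- Strips of a formal combination. -/
def fcStrips (L : FC) : List FC :=
  L.map (fun p => (stripsC 13 p.1).map (fun n => (n, p.2)))

/-- The table. -/
def T (a y x b : ℕ) : FC × FC :=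
  (((tab.getD a []).getD y []).getD x []).getD b ([], [])

/-- Which vectors have stable support in the path. -/
def stab (a y x b : ℕ) : Bool :=
  (a == 0 || y == 0) && (y == 0 || x == 0) && (x == 0 || b == 0)

/-- scale -/
def scl (c : ℕ) (L : FC) : FC := L.map (fun p => (p.1, c * p.2))

/-- The right-hand side lists. -/
def rhs (sel : FC × FC → FC) (a y x b : ℕ) : List FC :=
  (List.range (a + 1)).flatMap fun a' =>
  (List.range (y + 1)).flatMap fun y' =>
  (List.range (x + 1)).flatMap fun x' =>
  (List.range (b + 1)).flatMap fun b' =>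
    bif stab a' y' x' b' then
      [scl (a.choose a' * y.choose y' * x.choose x' * b.choose b')
        (sel (T (a - a') (y - y') (x - x') (b - b')))]
    else []

/-- Boolean equality of formal combinations. -/
def eqFC : FC → FC → Bool
  | [], [] => true
  | p :: a, q :: b => Nat.beq p.1 q.1 && (Nat.beq p.2 q.2 && eqFC a b)
  | _, _ => false

/-- weight check -/
def wtOK (m : ℕ) (L : FC) : Bool := L.all (fun p => Nat.beq (wtC 13 p.1) m)

/-- Check for one state. -/
def chk (a y x b : ℕ) : Bool :=
  wtOK (a + y + x + b) (T a y x b).1 && (wtOK (a + y + x + b) (T a y x b).2 &&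
  eqFC (mg 2000 (mgAll 10 (fcStrips (T a y x b).1)) (mgAll 10 (rhs Prod.snd a y x b)))
       (mg 2000 (mgAll 10 (fcStrips (T a y x b).2)) (mgAll 10 (rhs Prod.fst a y x b))))

end Pool.Agent.MP5400b1
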