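import Pool.Agent.MP5400b1.Schur

set_option autoImplicit false

/-! Horizontal strips on lists and on numerical codes. -/

namespace Pool.Agent.MP5400b1

open YoungDiagram

/-- Lists interlacing with a given list (same length). -/
def stripsL : List ℕ → List (List ℕ)
  | [] => [[]]
  | a :: l => (stripsL l).flatMap (fun r =>
      (List.range (a + 1 - l.headD 0)).map (fun i => (l.headD 0 + i) :: r))

/-- Base 16 encoding. -/
def enc : List ℕ → ℕ
  | [] => 0
  | a :: l => a + 16 * enc l

/-- Strips on codes. -/
def stripsC : ℕ → ℕ → List ℕ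
  | 0, _ => [0]
  | f + 1, n => if n = 0 then [0] else
      (stripsC f (n / 16)).flatMap (fun r =>
        (List.range (n % 16 + 1 - (n / 16) % 16)).map (fun i => ((n / 16) % 16 + i) + 16 * r))

/-- Weight of a code. -/
def wtC : ℕ → ℕ → ℕ
  | 0, _ => 0
  | f + 1, n => n % 16 + wtC f (n / 16)

lemma headD_eq_getD (l : List ℕ) : l.headD 0 = l.getD 0 0 := by
  cases l <;> simp

lemma mem_stripsL (l : List ℕ) : ∀ l' : List ℕ, l' ∈ stripsL l ↔
    (l'.length = l.length ∧ ∀ i, l'.getD i 0 ≤ l.getD i 0 ∧ l.getD (i + 1) 0 ≤ l'.getD i 0) := by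
  induction l with
  | nil =>
    intro l'
    simp only [stripsL, List.mem_singleton]
    constructor
    · rintro rfl
      simp
    · rintro ⟨h, _⟩
      exact List.length_eq_zero_iff.1 h
  | cons a l ih =>
    intro l'
    simp only [stripsL, List.mem_flatMap, List.mem_map, List.mem_range]
    constructor
    · rintro ⟨r, hr, i, hi, rfl⟩
      obtain ⟨hlen, hint⟩ := (ih r).1 hr
      refine ⟨by simp [hlen], ?_⟩
      intro j
      cases j with
      | zero =>
        simp only [List.getD_cons_zero, List.getD_cons_succ, zero_add]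
        rw [headD_eq_getD] at *
        omega
      | succ j =>
        simp only [List.getD_cons_succ]
        exact hint j
    · rintro ⟨hlen, hint⟩
      cases l' with
      | nil => simp at hlen
      | cons b r =>
        have h0 := hint 0
        simp only [List.getD_cons_zero, List.getD_cons_succ, zero_add] at h0
        rw [← headD_eq_getD] at h0
        refine ⟨r, ?_, b - l.headD 0, by omega, ?_⟩
        · rw [ih]
          refine ⟨by simpa using hlen, ?_⟩
          intro j
          have := hint (j + 1)
          simpa only [List.getD_cons_succ] using this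
        · congr 1
          omega

lemma nodup_stripsL (l : List ℕ) : (stripsL l).Nodup := by
  induction l with
  | nil => simp [stripsL]
  | cons a l ih =>
    simp only [stripsL]
    rw [List.nodup_flatMap]
    constructor
    · intro r _
      apply List.Nodup.map
      · intro i j h
        simpa using h
      · exact List.nodup_range
    · apply List.Nodup.pairwise_of_forall_ne ih
      intro r _ r' _ hne x hx hx'
      simp only [List.mem_map] at hx hx'
      obtain ⟨i, _, rfl⟩ := hx
      obtain ⟨j, _, h⟩ := hx'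
      apply hne
      simpa using (List.cons.inj h).2.symm

lemma enc_mod (l : List ℕ) (h : ∀ x ∈ l, x < 16) : enc l % 16 = l.headD 0 := by
  cases l with
  | nil => simp [enc]
  | cons a l =>
    have := h a (by simp)
    simp only [enc, List.headD_cons]
    omega

lemma enc_div (a : ℕ) (l : List ℕ) (h : a < 16) : enc (a :: l) / 16 = enc l := by
  simp only [enc]
  omega

lemma strips_zero (l : List ℕ) (h : ∀ x ∈ l, x < 16) (h0 : enc l = 0) :
    (stripsL l).map enc = [0] := by
  induction l with
  | nil => simp [stripsL, enc]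
  | cons a l ih =>
    have ha : a = 0 := by simp only [enc] at h0; omega
    have hl : enc l = 0 := by simp only [enc] at h0; omega
    have ih' := ih (fun x hx => h x (by simp [hx])) hl
    have hh : l.headD 0 = 0 := by
      rw [← enc_mod l (fun x hx => h x (by simp [hx])), hl]
    subst ha
    simp only [stripsL, hh]
    have : ∃ r, stripsL l = [r] ∧ enc r = 0 := by
      have hlen : (stripsL l).length = 1 := by
        have := congrArg List.length ih'
        simpa using this
      obtain ⟨r, hr⟩ := List.length_eq_one_iff.1 hlen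
      refine ⟨r, hr, ?_⟩
      rw [hr] at ih'
      simpa using ih'
    obtain ⟨r, hr, hr0⟩ := this
    rw [hr]
    simp [enc, hr0]

lemma stripsC_enc (l : List ℕ) (h : ∀ x ∈ l, x < 16) :
    stripsC l.length (enc l) = (stripsL l).map enc := by
  induction l with
  | nil => simp [stripsC, stripsL, enc]
  | cons a l ih =>
    by_cases h0 : enc (a :: l) = 0
    · rw [strips_zero _ h h0]
      simp [stripsC, h0]
    · have ih' := ih (fun x hx => h x (by simp [hx]))
      have ha : a < 16 := h a (by simp)
      rw [List.length_cons, stripsC, if_neg h0, enc_div a l ha, ih']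
      have h1 : enc (a :: l) % 16 = a := by
        rw [enc_mod _ h]; simp
      rw [h1, enc_mod l (fun x hx => h x (by simp [hx]))]
      simp only [stripsL]
      rw [List.map_flatMap, List.flatMap_map]
      congr 1
      funext r
      rw [List.map_map]
      rfl

lemma wtC_enc (l : List ℕ) (h : ∀ x ∈ l, x < 16) : wtC l.length (enc l) = l.sum := by
  induction l with
  | nil => simp [wtC]
  | cons a l ih =>
    have ih' := ih (fun x hx => h x (by simp [hx]))
    have ha : a < 16 := h a (by simp)
    rw [List.length_cons, wtC, enc_div a l ha, ih']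
    have h1 : enc (a :: l) % 16 = a := by
      rw [enc_mod _ h]; simp
    rw [h1, List.sum_cons]

/-- Row lengths, padded to length `N`. -/
def vec (N : ℕ) (μ : YoungDiagram) : List ℕ := (List.range N).map μ.rowLen

lemma length_vec (N : ℕ) (μ : YoungDiagram) : (vec N μ).length = N := by simp [vec]

lemma rowLen_zero_of_le {N : ℕ} {μ : YoungDiagram} (h : μ.rowLen N = 0) {i : ℕ} (hi : N ≤ i) :
    μ.rowLen i = 0 := by
  have := μ.rowLen_anti N i hi
  omega

lemma vec_getD {N : ℕ} {μ : YoungDiagram} (h : μ.rowLen N = 0) (i : ℕ) :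
    (vec N μ).getD i 0 = μ.rowLen i := by
  by_cases hi : i < N
  · rw [List.getD_eq_getElem _ _ (by simpa [vec] using hi)]
    simp [vec]
  · rw [List.getD_eq_default _ _ (by simpa [vec] using hi)]
    exact (rowLen_zero_of_le h (by omega)).symm

lemma vec_inj {N : ℕ} {μ ν : YoungDiagram} (h : μ.rowLen N = 0) (h' : ν.rowLen N = 0)
    (he : vec N μ = vec N ν) : μ = ν := by
  apply SetLike.ext
  rintro ⟨i, j⟩
  rw [mem_iff_lt_rowLen, mem_iff_lt_rowLen, ← vec_getD h, ← vec_getD h', he]

lemma strip_rowLen_zero {N : ℕ} {μ ν : YoungDiagram} (h : μ.rowLen N = 0) (hs : Strip μ ν) :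
    ν.rowLen N = 0 := by
  have := le_iff_rowLen.1 hs.1 N
  omega

lemma sorted_of_interlace (l l' : List ℕ)
    (hint : ∀ i, l'.getD i 0 ≤ l.getD i 0 ∧ l.getD (i + 1) 0 ≤ l'.getD i 0) : l'.SortedGE := by
  rw [List.sortedGE_iff_getElem_ge_getElem_of_le]
  intro i j hi hj hij
  have key : ∀ a d, l'.getD (a + d) 0 ≤ l'.getD a 0 := by
    intro a d
    induction d with
    | zero => simp
    | succ d ih =>
      have h1 := (hint (a + d + 1)).1
      have h2 := (hint (a + d)).2
      rw [← add_assoc]
      omega
  have h3 := key j (i - j)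
  have h4 : j + (i - j) = i := by omega
  rw [h4, List.getD_eq_getElem _ _ hi, List.getD_eq_getElem _ _ hj] at h3
  exact h3

lemma rowLen_ofRowLens_getD (w : List ℕ) (hw : w.SortedGE) (i : ℕ) :
    (ofRowLens w hw).rowLen i = w.getD i 0 := by
  apply le_antisymm
  · apply le_of_forall_lt
    intro j hj
    rw [← mem_iff_lt_rowLen, mem_ofRowLens] at hj
    obtain ⟨h1, h2⟩ := hj
    rw [List.getD_eq_getElem _ _ h1]
    exact h2
  · apply le_of_forall_lt
    intro j hj
    rw [← mem_iff_lt_rowLen, mem_ofRowLens]
    by_cases h : i < w.length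
    · rw [List.getD_eq_getElem _ _ h] at hj
      exact ⟨h, hj⟩
    · rw [List.getD_eq_default _ _ (by omega)] at hj
      omega

/-- Sum over strips. -/
theorem sum_strips {N : ℕ} {M : Type*} [AddCommMonoid M] (μ : YoungDiagram)
    (h : μ.rowLen N = 0) (g : List ℕ → M) :
    ∑ ν : {ν // Strip μ ν}, g (vec N ν.1) = ((stripsL (vec N μ)).map g).sum := by
  rw [← List.sum_toFinset _ (nodup_stripsL _)]
  apply Finset.sum_bij (fun (ν : {ν // Strip μ ν}) _ => vec N ν.1)
  · intro ν _
    rw [List.mem_toFinset, mem_stripsL]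
    refine ⟨by rw [length_vec, length_vec], ?_⟩
    intro i
    rw [vec_getD (strip_rowLen_zero h ν.2), vec_getD h, vec_getD h]
    exact ⟨le_iff_rowLen.1 ν.2.1 i, ν.2.2 i⟩
  · intro ν _ ν' _ he
    apply Subtype.ext
    exact vec_inj (strip_rowLen_zero h ν.2) (strip_rowLen_zero h ν'.2) he
  · intro l' hl'
    rw [List.mem_toFinset, mem_stripsL] at hl'
    obtain ⟨hlen, hint⟩ := hl'
    have hs : l'.SortedGE := sorted_of_interlace _ _ hint
    have hrow : ∀ i, (ofRowLens l' hs).rowLen i = l'.getD i 0 := rowLen_ofRowLens_getD l' hs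
    have hstrip : Strip μ (ofRowLens l' hs) := by
      constructor
      · rw [le_iff_rowLen]
        intro i
        rw [hrow, ← vec_getD h]
        exact (hint i).1
      · intro i
        rw [hrow, ← vec_getD h]
        exact (hint i).2
    refine ⟨⟨_, hstrip⟩, Finset.mem_univ _, ?_⟩
    apply List.ext_getElem
    · rw [length_vec, hlen, length_vec]
    · intro i h1 h2
      have h3 := vec_getD (strip_rowLen_zero h hstrip) i
      rw [hrow, List.getD_eq_getElem _ _ h1, List.getD_eq_getElem _ _ h2] at h3
      exact h3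
  · intro ν _
    rfl

/-- The code of a diagram. -/
def codeY (μ : YoungDiagram) : ℕ := enc (vec 13 μ)

/-- Schur polynomials on codes. -/
noncomputable def SLc : ℕ → ℕ → MvPolynomial ℕ ℤ
  | 0, n => if n = 0 then 1 else 0
  | k + 1, n => ((stripsC 13 n).map (fun n' =>
      (MvPolynomial.X k) ^ (wtC 13 n - wtC 13 n') * SLc k n')).sum

/-- Admissible diagrams. -/
def Adm (μ : YoungDiagram) : Prop := μ.rowLen 13 = 0 ∧ μ.rowLen 0 < 16

lemma adm_strip {μ ν : YoungDiagram} (h : Adm μ) (hs : Strip μ ν) : Adm ν := by
  refine ⟨strip_rowLen_zero h.1 hs, ?_⟩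
  have := le_iff_rowLen.1 hs.1 0
  exact lt_of_le_of_lt this h.2

lemma vec_lt {μ : YoungDiagram} (h : Adm μ) : ∀ x ∈ vec 13 μ, x < 16 := by
  intro x hx
  simp only [vec, List.mem_map, List.mem_range] at hx
  obtain ⟨i, _, rfl⟩ := hx
  exact lt_of_le_of_lt (μ.rowLen_anti 0 i (Nat.zero_le i)) h.2

lemma card_eq_sum_vec {μ : YoungDiagram} (h : μ.rowLen 13 = 0) :
    μ.cells.card = (vec 13 μ).sum := by
  have h1 : μ.cells = (Finset.range 13).biUnion (fun i => μ.row i) := by
    ext ⟨i, j⟩
    simp only [Finset.mem_biUnion, Finset.mem_range, mem_cells, mem_row_iff]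
    constructor
    · intro hm
      refine ⟨i, ?_, hm, rfl⟩
      by_contra hi
      have h2 := rowLen_zero_of_le h (i := i) (by omega)
      rw [mem_iff_lt_rowLen] at hm
      omega
    · rintro ⟨a, _, hm, _⟩
      exact hm
  rw [h1, Finset.card_biUnion]
  · simp only [← rowLen_eq_card]
    rw [vec, ← List.sum_toFinset _ List.nodup_range, List.toFinset_range]
  · intro a _ b _ hab
    rw [Function.onFun, Finset.disjoint_left]
    intro x hx hx'
    rw [mem_row_iff] at hx hx'
    exact hab (hx.2.symm.trans hx'.2)

lemma wtC_codeY {μ : YoungDiagram} (h : Adm μ) : wtC 13 (codeY μ) = μ.cells.card := by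
  have h1 := wtC_enc (vec 13 μ) (vec_lt h)
  rw [length_vec] at h1
  rw [codeY, h1, card_eq_sum_vec h.1]

lemma wtC_zero (f : ℕ) : wtC f 0 = 0 := by
  induction f with
  | zero => rfl
  | succ f ih => simp [wtC, ih]

lemma codeY_bot : codeY ⊥ = 0 := by
  have h : ∀ i, (⊥ : YoungDiagram).rowLen i = 0 := by
    intro i
    by_contra h
    have : (i, 0) ∈ (⊥ : YoungDiagram) := mem_iff_lt_rowLen.2 (by omega)
    exact notMem_bot _ this
  simp [codeY, vec, h, enc, List.range_succ]

/-- Schur polynomials of admissible diagrams agree with those on codes. -/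
theorem S_eq_SLc (k : ℕ) : ∀ μ : YoungDiagram, Adm μ → S k μ = SLc k (codeY μ) := by
  induction k with
  | zero =>
    intro μ h
    by_cases hb : μ = ⊥
    · subst hb
      rw [S_zero_bot, codeY_bot]
      simp [SLc]
    · rw [S_zero_ne μ hb]
      have hc : codeY μ ≠ 0 := by
        intro h0
        have h1 := wtC_codeY h
        rw [h0, wtC_zero] at h1
        apply hb
        apply YoungDiagram.ext
        rw [cells_bot]
        exact Finset.card_eq_zero.1 h1.symm
      simp [SLc, hc]
  | succ k ih =>
    intro μ h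
    rw [S_succ]
    have h1 : ∀ ν : {ν // Strip μ ν},
        (MvPolynomial.X k : MvPolynomial ℕ ℤ) ^ (μ.cells.card - ν.1.cells.card) * S k ν.1 =
        (fun l => (MvPolynomial.X k : MvPolynomial ℕ ℤ) ^ (wtC 13 (codeY μ) - wtC 13 (enc l))
          * SLc k (enc l)) (vec 13 ν.1) := by
      intro ν
      have hν := adm_strip h ν.2
      rw [ih _ hν, ← wtC_codeY h, ← wtC_codeY hν]
      rfl
    refine (Finset.sum_congr rfl (fun ν _ => h1 ν)).trans ?_
    refine (sum_strips (N := 13) μ h.1 (fun l =>
      (MvPolynomial.X k : MvPolynomial ℕ ℤ) ^ (wtC 13 (codeY μ) - wtC 13 (enc l))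
          * SLc k (enc l))).trans ?_
    have h2 := stripsC_enc (vec 13 μ) (vec_lt h)
    rw [length_vec] at h2
    have h3 : stripsC 13 (codeY μ) = (stripsL (vec 13 μ)).map enc := h2
    have h4 : SLc (k + 1) (codeY μ) = ((stripsC 13 (codeY μ)).map (fun n' =>
      (MvPolynomial.X k : MvPolynomial ℕ ℤ) ^ (wtC 13 (codeY μ) - wtC 13 n') * SLc k n')).sum := rfl
    rw [h4, h3, List.map_map]
    rfl

end Pool.Agent.MP5400b1
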