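import Pool.Agent.MP5400b1.Sound

set_option autoImplicit false

/-! The colouring side. -/

namespace Pool.Agent.MP5400b1

/-- The class of a vertex. -/
def cls : Fin 13 → Fin 4 := ![0, 0, 0, 0, 1, 1, 2, 2, 3, 3, 3, 3, 3]

/-- The blow-up of the path on four vertices with independent classes of sizes 4, 2, 2, 5. -/
def G : SimpleGraph (Fin 13) where
  Adj u v := (cls u).val + 1 = (cls v).val ∨ (cls v).val + 1 = (cls u).val
  symm := ⟨fun u v h => h.symm⟩
  loopless := ⟨fun u h => by rcases h with h | h <;> omega⟩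

/-- Stable sets. -/
def Stable (S : Finset (Fin 13)) : Prop := ∀ u ∈ S, ∀ v ∈ S, ¬ G.Adj u v

/-- Proper colourings of the set `W` with colours `< k` (zero outside `W`). -/
abbrev Col (k : ℕ) (W : Finset (Fin 13)) : Type :=
  {f : Fin 13 → ℕ // (∀ v ∈ W, f v < k) ∧ (∀ v, v ∉ W → f v = 0) ∧
    (∀ u ∈ W, ∀ v ∈ W, G.Adj u v → f u ≠ f v)}

instance finCol (k : ℕ) (W : Finset (Fin 13)) : Finite (Col k W) := by
  have hlt : ∀ (f : Col k W) (v : Fin 13), f.1 v < k + 1 := by
    intro f v
    by_cases h : v ∈ W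
    · exact Nat.lt_succ_of_lt (f.2.1 v h)
    · rw [f.2.2.1 v h]; exact Nat.succ_pos k
  apply Finite.of_injective (β := Fin 13 → Fin (k + 1)) (fun f v => ⟨f.1 v, hlt f v⟩)
  intro f g h
  apply Subtype.ext
  funext v
  have := congrFun h v
  simpa using this

noncomputable instance fintypeCol (k : ℕ) (W : Finset (Fin 13)) : Fintype (Col k W) :=
  Fintype.ofFinite _

/-- The generating polynomial of colourings of `W`. -/
noncomputable def P (k : ℕ) (W : Finset (Fin 13)) : MvPolynomial ℕ ℤ :=
  ∑ f : Col k W, ∏ v ∈ W, (MvPolynomial.X (f.1 v) : MvPolynomial ℕ ℤ)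

/-- Gluing a colour class. -/
def glue {k : ℕ} {W S : Finset (Fin 13)} (hS : S ⊆ W ∧ Stable S) (g : Col k (W \ S)) :
    Col (k + 1) W :=
  ⟨fun v => if v ∈ S then k else g.1 v, by
    refine ⟨?_, ?_, ?_⟩
    · intro v hv
      by_cases h : v ∈ S
      · simp [h]
      · simp only [h, if_false]
        exact Nat.lt_succ_of_lt (g.2.1 v (Finset.mem_sdiff.2 ⟨hv, h⟩))
    · intro v hv
      have h : v ∉ S := fun h => hv (hS.1 h)
      simp only [h, if_false]
      exact g.2.2.1 v (fun h2 => hv (Finset.mem_sdiff.1 h2).1)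
    · intro u hu v hv huv
      by_cases h1 : u ∈ S
      · by_cases h2 : v ∈ S
        · exact absurd huv (hS.2 u h1 v h2)
        · simp only [h1, h2, if_true, if_false]
          have := g.2.1 v (Finset.mem_sdiff.2 ⟨hv, h2⟩)
          omega
      · by_cases h2 : v ∈ S
        · simp only [h1, h2, if_true, if_false]
          have := g.2.1 u (Finset.mem_sdiff.2 ⟨hu, h1⟩)
          omega
        · simp only [h1, h2, if_false]
          exact g.2.2.2 u (Finset.mem_sdiff.2 ⟨hu, h1⟩) v (Finset.mem_sdiff.2 ⟨hv, h2⟩) huv⟩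

lemma glue_apply {k : ℕ} {W S : Finset (Fin 13)} (hS : S ⊆ W ∧ Stable S) (g : Col k (W \ S))
    (v : Fin 13) : (glue hS g).1 v = if v ∈ S then k else g.1 v := rfl

lemma glue_eq_iff {k : ℕ} {W S : Finset (Fin 13)} (hS : S ⊆ W ∧ Stable S) (g : Col k (W \ S))
    (v : Fin 13) (hv : v ∈ W) : (glue hS g).1 v = k ↔ v ∈ S := by
  rw [glue_apply]
  by_cases h : v ∈ S
  · simp [h]
  · simp only [h, if_false, iff_false]
    have := g.2.1 v (Finset.mem_sdiff.2 ⟨hv, h⟩)
    omega

/-- Gluing as a map from the sigma type. -/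
def glueS {k : ℕ} {W : Finset (Fin 13)}
    (x : Σ S : {S : Finset (Fin 13) // S ⊆ W ∧ Stable S}, Col k (W \ S.1)) : Col (k + 1) W :=
  glue x.1.2 x.2

lemma glueS_bij {k : ℕ} {W : Finset (Fin 13)} :
    Function.Bijective (glueS (k := k) (W := W)) := by
  constructor
  · rintro ⟨⟨S, hS⟩, g⟩ ⟨⟨S', hS'⟩, g'⟩ h
    change glue hS g = glue hS' g' at h
    have hSS : S = S' := by
      ext v
      constructor
      · intro hv
        have h1 := (glue_eq_iff hS g v (hS.1 hv)).2 hv
        rw [h] at h1
        exact (glue_eq_iff hS' g' v (hS.1 hv)).1 h1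
      · intro hv
        have h1 := (glue_eq_iff hS' g' v (hS'.1 hv)).2 hv
        rw [← h] at h1
        exact (glue_eq_iff hS g v (hS'.1 hv)).1 h1
    subst hSS
    have hg : g = g' := by
      apply Subtype.ext
      funext v
      by_cases hv : v ∈ W \ S
      · have h1 : (glue hS g).1 v = (glue hS' g').1 v := by rw [h]
        rw [glue_apply, glue_apply] at h1
        simpa only [(Finset.mem_sdiff.1 hv).2, if_false] using h1
      · rw [g.2.2.1 v hv, g'.2.2.1 v hv]
    rw [hg]
  · intro f
    have hS : W.filter (fun v => f.1 v = k) ⊆ W ∧ Stable (W.filter (fun v => f.1 v = k)) := by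
      refine ⟨Finset.filter_subset _ _, ?_⟩
      intro u hu v hv huv
      rw [Finset.mem_filter] at hu hv
      exact f.2.2.2 u hu.1 v hv.1 huv (hu.2.trans hv.2.symm)
    have key : ∀ v, v ∈ W \ W.filter (fun v => f.1 v = k) ↔ v ∈ W ∧ f.1 v ≠ k := by
      intro v
      rw [Finset.mem_sdiff, Finset.mem_filter]
      tauto
    refine ⟨⟨⟨_, hS⟩, ⟨fun v => if v ∈ W \ W.filter (fun v => f.1 v = k) then f.1 v else 0,
      ?_, ?_, ?_⟩⟩, ?_⟩
    · intro v hv
      simp only [hv, if_true]
      have h1 := (key v).1 hv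
      have h2 := f.2.1 v h1.1
      omega
    · intro v hv
      simp only [hv, if_false]
    · intro u hu v hv huv
      simp only [hu, hv, if_true]
      exact f.2.2.2 u ((key u).1 hu).1 v ((key v).1 hv).1 huv
    · apply Subtype.ext
      funext v
      change (if v ∈ W.filter (fun v => f.1 v = k) then k else
        if v ∈ W \ W.filter (fun v => f.1 v = k) then f.1 v else 0) = f.1 v
      by_cases h1 : v ∈ W.filter (fun v => f.1 v = k)
      · simp only [h1, if_true]
        exact ((Finset.mem_filter.1 h1).2).symm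
      · simp only [h1, if_false]
        by_cases h2 : v ∈ W
        · have h3 : v ∈ W \ W.filter (fun v => f.1 v = k) := Finset.mem_sdiff.2 ⟨h2, h1⟩
          simp only [h3, if_true]
        · have h3 : v ∉ W \ W.filter (fun v => f.1 v = k) :=
            fun h => h2 (Finset.mem_sdiff.1 h).1
          simp only [h3, if_false]
          exact (f.2.2.1 v h2).symm

lemma wt_glue {k : ℕ} {W S : Finset (Fin 13)} (hS : S ⊆ W ∧ Stable S) (g : Col k (W \ S)) :
    ∏ v ∈ W, (MvPolynomial.X ((glue hS g).1 v) : MvPolynomial ℕ ℤ) =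
      (MvPolynomial.X k) ^ S.card * ∏ v ∈ W \ S, (MvPolynomial.X (g.1 v) : MvPolynomial ℕ ℤ) := by
  rw [← Finset.prod_sdiff hS.1, mul_comm]
  congr 1
  · apply Finset.prod_eq_pow_card
    intro v hv
    rw [glue_apply]
    simp only [hv, if_true]
  · apply Finset.prod_congr rfl
    intro v hv
    rw [glue_apply]
    simp only [(Finset.mem_sdiff.1 hv).2, if_false]

noncomputable instance fintypeStab (W : Finset (Fin 13)) :
    Fintype {S : Finset (Fin 13) // S ⊆ W ∧ Stable S} := Fintype.ofFinite _

theorem P_succ (k : ℕ) (W : Finset (Fin 13)) :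
    P (k + 1) W = ∑ S : {S : Finset (Fin 13) // S ⊆ W ∧ Stable S},
      (MvPolynomial.X k) ^ S.1.card * P k (W \ S.1) := by
  unfold P
  rw [← (glueS_bij (k := k) (W := W)).sum_comp, Fintype.sum_sigma]
  apply Finset.sum_congr rfl
  intro S _
  rw [Finset.mul_sum]
  apply Finset.sum_congr rfl
  intro g _
  exact wt_glue S.2 g

lemma P_zero_empty : P 0 ∅ = 1 := by
  unfold P
  have hu : Unique (Col 0 ∅) :=
    { default := ⟨fun _ => 0, by simp⟩
      uniq := by
        intro f
        apply Subtype.ext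
        funext v
        exact f.2.2.1 v (Finset.notMem_empty v) }
  rw [Fintype.sum_unique]
  simp

lemma P_zero_ne (W : Finset (Fin 13)) (h : W.Nonempty) : P 0 W = 0 := by
  unfold P
  obtain ⟨v, hv⟩ := h
  have he : IsEmpty (Col 0 W) := ⟨fun f => absurd (f.2.1 v hv) (Nat.not_lt_zero _)⟩
  exact Fintype.sum_empty _

/-- Number of vertices of `W` in class `i`. -/
def cnt (i : Fin 4) (W : Finset (Fin 13)) : ℕ := (W.filter (fun v => cls v = i)).card

lemma cnt_sdiff (i : Fin 4) {W S : Finset (Fin 13)} (h : S ⊆ W) :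
    cnt i (W \ S) = cnt i W - cnt i S := by
  unfold cnt
  rw [← Finset.card_sdiff_of_subset (Finset.filter_subset_filter _ h)]
  congr 1
  ext v
  simp only [Finset.mem_filter, Finset.mem_sdiff]
  tauto

lemma card_eq_cnt (W : Finset (Fin 13)) : W.card = cnt 0 W + cnt 1 W + cnt 2 W + cnt 3 W := by
  have h := Finset.card_eq_sum_card_fiberwise (s := W) (t := (Finset.univ : Finset (Fin 4)))
    (f := cls) (by intro x _; simp)
  rw [h, Fin.sum_univ_four]
  rfl

lemma stable_iff (S : Finset (Fin 13)) :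
    Stable S ↔ stab (cnt 0 S) (cnt 1 S) (cnt 2 S) (cnt 3 S) = true := by
  have key : ∀ i j : Fin 4, i.val + 1 = j.val → Stable S → (cnt i S = 0 ∨ cnt j S = 0) := by
    intro i j hij hs
    by_contra hcon
    push Not at hcon
    obtain ⟨h1, h2⟩ := hcon
    obtain ⟨u, hu⟩ := Finset.card_ne_zero.1 h1
    obtain ⟨v, hv⟩ := Finset.card_ne_zero.1 h2
    rw [Finset.mem_filter] at hu hv
    apply hs u hu.1 v hv.1
    left
    rw [hu.2, hv.2]
    exact hij
  constructor
  · intro hs
    have k1 := key 0 1 rfl hs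
    have k2 := key 1 2 rfl hs
    have k3 := key 2 3 rfl hs
    simp only [stab, Bool.and_eq_true, Bool.or_eq_true, beq_iff_eq]
    exact ⟨⟨k1, k2⟩, k3⟩
  · intro h
    simp only [stab, Bool.and_eq_true, Bool.or_eq_true, beq_iff_eq] at h
    obtain ⟨⟨k1, k2⟩, k3⟩ := h
    have pos : ∀ w ∈ S, cnt (cls w) S ≠ 0 := by
      intro w hw
      exact Finset.card_ne_zero.2 ⟨w, Finset.mem_filter.2 ⟨hw, rfl⟩⟩
    have main : ∀ u ∈ S, ∀ v ∈ S, (cls u).val + 1 = (cls v).val → False := by
      intro u hu v hv huv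
      have p1 := pos u hu
      have p2 := pos v hv
      generalize cls u = i at *
      generalize cls v = j at *
      fin_cases i <;> fin_cases j <;> simp_all
    intro u hu v hv huv
    rcases huv with h | h
    · exact main u hu v hv h
    · exact main v hv u hu h

lemma sum_powerset_union {α M : Type*} [DecidableEq α] [AddCommMonoid M] {A B : Finset α}
    (h : Disjoint A B) (f : Finset α → M) :
    ∑ S ∈ (A ∪ B).powerset, f S = ∑ S1 ∈ A.powerset, ∑ S2 ∈ B.powerset, f (S1 ∪ S2) := by
  rw [← Finset.sum_product']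
  apply Finset.sum_bij' (fun S _ => (S ∩ A, S ∩ B)) (fun p _ => p.1 ∪ p.2)
  · intro S hS
    simp only [Finset.mem_product, Finset.mem_powerset]
    exact ⟨Finset.inter_subset_right, Finset.inter_subset_right⟩
  · intro p hp
    simp only [Finset.mem_product, Finset.mem_powerset] at hp ⊢
    exact Finset.union_subset_union hp.1 hp.2
  · intro S hS
    rw [Finset.mem_powerset] at hS
    change S ∩ A ∪ S ∩ B = S
    rw [← Finset.inter_union_distrib_left]
    exact Finset.inter_eq_left.2 hS
  · intro p hp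
    simp only [Finset.mem_product, Finset.mem_powerset] at hp
    rw [Finset.disjoint_left] at h
    apply Prod.ext
    · ext v
      simp only [Finset.mem_inter, Finset.mem_union]
      constructor
      · rintro ⟨h1 | h1, h2⟩
        · exact h1
        · exact absurd (hp.2 h1) (h h2)
      · intro h1
        exact ⟨Or.inl h1, hp.1 h1⟩
    · ext v
      simp only [Finset.mem_inter, Finset.mem_union]
      constructor
      · rintro ⟨h1 | h1, h2⟩
        · exact absurd h2 (h (hp.1 h1))
        · exact h1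
      · intro h1
        exact ⟨Or.inr h1, hp.2 h1⟩
  · intro S hS
    rw [Finset.mem_powerset] at hS
    change f S = f (S ∩ A ∪ S ∩ B)
    rw [← Finset.inter_union_distrib_left, Finset.inter_eq_left.2 hS]

lemma sum_by_cnt (W : Finset (Fin 13)) (h : ℕ → ℕ → ℕ → ℕ → MvPolynomial ℕ ℤ) :
    ∑ S ∈ W.powerset, h (cnt 0 S) (cnt 1 S) (cnt 2 S) (cnt 3 S) =
      ∑ a' ∈ Finset.range (cnt 0 W + 1), ∑ y' ∈ Finset.range (cnt 1 W + 1),
      ∑ x' ∈ Finset.range (cnt 2 W + 1), ∑ b' ∈ Finset.range (cnt 3 W + 1),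
        (((cnt 0 W).choose a' * (cnt 1 W).choose y' * (cnt 2 W).choose x' *
          (cnt 3 W).choose b' : ℕ) : MvPolynomial ℕ ℤ) * h a' y' x' b' := by
  have hW : W = W.filter (fun v => cls v = 0) ∪ (W.filter (fun v => cls v = 1) ∪
      (W.filter (fun v => cls v = 2) ∪ W.filter (fun v => cls v = 3))) := by
    ext v
    simp only [Finset.mem_union, Finset.mem_filter]
    constructor
    · intro hv
      generalize cls v = i
      fin_cases i <;> simp [hv]
    · tauto
  have d3 : Disjoint (W.filter (fun v => cls v = 2)) (W.filter (fun v => cls v = 3)) := by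
    rw [Finset.disjoint_left]
    intro v h1 h2
    rw [Finset.mem_filter] at h1 h2
    exact absurd (h1.2.symm.trans h2.2) (by decide)
  have d2 : Disjoint (W.filter (fun v => cls v = 1)) (W.filter (fun v => cls v = 2) ∪
      W.filter (fun v => cls v = 3)) := by
    rw [Finset.disjoint_left]
    intro v h1 h2
    rw [Finset.mem_union, Finset.mem_filter, Finset.mem_filter] at h2
    rw [Finset.mem_filter] at h1
    rcases h2 with h2 | h2
    · exact absurd (h1.2.symm.trans h2.2) (by decide)
    · exact absurd (h1.2.symm.trans h2.2) (by decide)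
  have d1 : Disjoint (W.filter (fun v => cls v = 0)) (W.filter (fun v => cls v = 1) ∪
      (W.filter (fun v => cls v = 2) ∪ W.filter (fun v => cls v = 3))) := by
    rw [Finset.disjoint_left]
    intro v h1 h2
    rw [Finset.mem_union, Finset.mem_union, Finset.mem_filter, Finset.mem_filter,
      Finset.mem_filter] at h2
    rw [Finset.mem_filter] at h1
    rcases h2 with h2 | h2 | h2
    · exact absurd (h1.2.symm.trans h2.2) (by decide)
    · exact absurd (h1.2.symm.trans h2.2) (by decide)
    · exact absurd (h1.2.symm.trans h2.2) (by decide)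
  have hcnt : ∀ S0 ∈ (W.filter (fun v => cls v = 0)).powerset,
      ∀ S1 ∈ (W.filter (fun v => cls v = 1)).powerset,
      ∀ S2 ∈ (W.filter (fun v => cls v = 2)).powerset,
      ∀ S3 ∈ (W.filter (fun v => cls v = 3)).powerset,
      cnt 0 (S0 ∪ (S1 ∪ (S2 ∪ S3))) = S0.card ∧ cnt 1 (S0 ∪ (S1 ∪ (S2 ∪ S3))) = S1.card ∧
      cnt 2 (S0 ∪ (S1 ∪ (S2 ∪ S3))) = S2.card ∧ cnt 3 (S0 ∪ (S1 ∪ (S2 ∪ S3))) = S3.card := by
    intro S0 h0 S1 h1 S2 h2 S3 h3
    rw [Finset.mem_powerset] at h0 h1 h2 h3
    have c0 : ∀ v ∈ S0, cls v = 0 := fun v hv => (Finset.mem_filter.1 (h0 hv)).2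
    have c1 : ∀ v ∈ S1, cls v = 1 := fun v hv => (Finset.mem_filter.1 (h1 hv)).2
    have c2 : ∀ v ∈ S2, cls v = 2 := fun v hv => (Finset.mem_filter.1 (h2 hv)).2
    have c3 : ∀ v ∈ S3, cls v = 3 := fun v hv => (Finset.mem_filter.1 (h3 hv)).2
    refine ⟨?_, ?_, ?_, ?_⟩
    · unfold cnt
      congr 1
      ext v
      simp only [Finset.mem_union, Finset.mem_filter]
      constructor
      · rintro ⟨hv | hv | hv | hv, hc⟩
        · exact hv
        · rw [c1 v hv] at hc; exact absurd hc (by decide)
        · rw [c2 v hv] at hc; exact absurd hc (by decide)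
        · rw [c3 v hv] at hc; exact absurd hc (by decide)
      · intro hv
        exact ⟨Or.inl hv, c0 v hv⟩
    · unfold cnt
      congr 1
      ext v
      simp only [Finset.mem_union, Finset.mem_filter]
      constructor
      · rintro ⟨hv | hv | hv | hv, hc⟩
        · rw [c0 v hv] at hc; exact absurd hc (by decide)
        · exact hv
        · rw [c2 v hv] at hc; exact absurd hc (by decide)
        · rw [c3 v hv] at hc; exact absurd hc (by decide)
      · intro hv
        exact ⟨Or.inr (Or.inl hv), c1 v hv⟩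
    · unfold cnt
      congr 1
      ext v
      simp only [Finset.mem_union, Finset.mem_filter]
      constructor
      · rintro ⟨hv | hv | hv | hv, hc⟩
        · rw [c0 v hv] at hc; exact absurd hc (by decide)
        · rw [c1 v hv] at hc; exact absurd hc (by decide)
        · exact hv
        · rw [c3 v hv] at hc; exact absurd hc (by decide)
      · intro hv
        exact ⟨Or.inr (Or.inr (Or.inl hv)), c2 v hv⟩
    · unfold cnt
      congr 1
      ext v
      simp only [Finset.mem_union, Finset.mem_filter]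
      constructor
      · rintro ⟨hv | hv | hv | hv, hc⟩
        · rw [c0 v hv] at hc; exact absurd hc (by decide)
        · rw [c1 v hv] at hc; exact absurd hc (by decide)
        · rw [c2 v hv] at hc; exact absurd hc (by decide)
        · exact hv
      · intro hv
        exact ⟨Or.inr (Or.inr (Or.inr hv)), c3 v hv⟩
  conv_lhs => rw [hW]
  rw [sum_powerset_union d1]
  have step : ∀ S0 ∈ (W.filter (fun v => cls v = 0)).powerset,
      (∑ S ∈ (W.filter (fun v => cls v = 1) ∪
      (W.filter (fun v => cls v = 2) ∪ W.filter (fun v => cls v = 3))).powerset,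
        h (cnt 0 (S0 ∪ S)) (cnt 1 (S0 ∪ S)) (cnt 2 (S0 ∪ S)) (cnt 3 (S0 ∪ S))) =
      ∑ S1 ∈ (W.filter (fun v => cls v = 1)).powerset,
      ∑ S2 ∈ (W.filter (fun v => cls v = 2)).powerset,
      ∑ S3 ∈ (W.filter (fun v => cls v = 3)).powerset,
        h S0.card S1.card S2.card S3.card := by
    intro S0 hS0
    rw [sum_powerset_union d2]
    apply Finset.sum_congr rfl
    intro S1 hS1
    rw [sum_powerset_union d3]
    apply Finset.sum_congr rfl
    intro S2 hS2
    apply Finset.sum_congr rfl
    intro S3 hS3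
    obtain ⟨e0, e1, e2, e3⟩ := hcnt S0 hS0 S1 hS1 S2 hS2 S3 hS3
    rw [e0, e1, e2, e3]
  rw [Finset.sum_congr rfl step]
  rw [Finset.sum_powerset_apply_card (fun n0 => ∑ S1 ∈ (W.filter (fun v => cls v = 1)).powerset,
      ∑ S2 ∈ (W.filter (fun v => cls v = 2)).powerset,
      ∑ S3 ∈ (W.filter (fun v => cls v = 3)).powerset,
        h n0 S1.card S2.card S3.card)]
  apply Finset.sum_congr rfl
  intro a' _
  rw [Finset.sum_powerset_apply_card (fun n1 =>
      ∑ S2 ∈ (W.filter (fun v => cls v = 2)).powerset,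
      ∑ S3 ∈ (W.filter (fun v => cls v = 3)).powerset,
        h a' n1 S2.card S3.card), Finset.smul_sum]
  apply Finset.sum_congr rfl
  intro y' _
  rw [Finset.sum_powerset_apply_card (fun n2 =>
      ∑ S3 ∈ (W.filter (fun v => cls v = 3)).powerset,
        h a' y' n2 S3.card), Finset.smul_sum, Finset.smul_sum]
  apply Finset.sum_congr rfl
  intro x' _
  rw [Finset.sum_powerset_apply_card (fun n3 => h a' y' x' n3), Finset.smul_sum,
    Finset.smul_sum, Finset.smul_sum]
  apply Finset.sum_congr rfl
  intro b' _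
  simp only [nsmul_eq_mul]
  push_cast
  unfold cnt
  ring

end Pool.Agent.MP5400b1
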