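import Pool.Agent.MP5400b1.Check

set_option autoImplicit false
set_option maxRecDepth 100000

/-! The finite check, run by the kernel. -/

namespace Pool.Agent.MP5400b1

/-- All states with first coordinate `a` pass the check. -/
def chkRow (a : ℕ) : Bool :=
  (List.range 3).all (fun y => (List.range 3).all (fun x => (List.range 6).all (fun b =>
    chk a y x b)))

theorem chkRow0 : chkRow 0 = true := by decide +kernel
theorem chkRow1 : chkRow 1 = true := by decide +kernel
theorem chkRow2 : chkRow 2 = true := by decide +kernel
theorem chkRow3 : chkRow 3 = true := by decide +kernel
theorem chkRow4 : chkRow 4 = true := by decide +kernel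

end Pool.Agent.MP5400b1
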