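import Pool.Agent.MP5400b1.Color
import Pool.Agent.MP5400b1.Rows

set_option autoImplicit false
set_option maxRecDepth 100000

/-! Assembly: Schur positivity of the blow-up. -/

namespace Pool.Agent.MP5400b1

open YoungDiagram

theorem chk_all (a y x b : ℕ) (ha : a ≤ 4) (hy : y ≤ 2) (hx : x ≤ 2) (hb : b ≤ 5) :
    chk a y x b = true := by
  have h : chkRow a = true := by
    interval_cases a
    · exact chkRow0
    · exact chkRow1
    · exact chkRow2
    · exact chkRow3
    · exact chkRow4
  unfold chkRow at h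
  rw [List.all_eq_true] at h
  have h1 := h y (List.mem_range.2 (by omega))
  rw [List.all_eq_true] at h1
  have h2 := h1 x (List.mem_range.2 (by omega))
  rw [List.all_eq_true] at h2
  exact h2 b (List.mem_range.2 (by omega))

lemma cnt_mono (i : Fin 4) {W W' : Finset (Fin 13)} (h : W ⊆ W') : cnt i W ≤ cnt i W' :=
  Finset.card_le_card (Finset.filter_subset_filter _ h)

lemma cnt_univ : cnt 0 Finset.univ = 4 ∧ cnt 1 Finset.univ = 2 ∧ cnt 2 Finset.univ = 2 ∧
    cnt 3 Finset.univ = 5 := by decide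

lemma Phi_zero_of_wt {m : ℕ} (hm : 0 < m) {L : FC} (h : wtOK m L = true) : Phi 0 L = 0 := by
  unfold Phi
  apply List.sum_eq_zero
  intro q hq
  rw [List.mem_map] at hq
  obtain ⟨p, hp, rfl⟩ := hq
  have h1 := wtOK_mem h p hp
  have h2 : p.1 ≠ 0 := by
    intro h0
    rw [h0, wtC_zero] at h1
    omega
  simp [SLc, h2]

theorem P_eq_F (k : ℕ) : ∀ W : Finset (Fin 13),
    P k W = F k (cnt 0 W) (cnt 1 W) (cnt 2 W) (cnt 3 W) := by
  have hb : ∀ W : Finset (Fin 13), cnt 0 W ≤ 4 ∧ cnt 1 W ≤ 2 ∧ cnt 2 W ≤ 2 ∧ cnt 3 W ≤ 5 := by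
    intro W
    have h0 := cnt_mono 0 (Finset.subset_univ W)
    have h1 := cnt_mono 1 (Finset.subset_univ W)
    have h2 := cnt_mono 2 (Finset.subset_univ W)
    have h3 := cnt_mono 3 (Finset.subset_univ W)
    obtain ⟨e0, e1, e2, e3⟩ := cnt_univ
    omega
  induction k with
  | zero =>
    intro W
    obtain ⟨b0, b1, b2, b3⟩ := hb W
    rcases W.eq_empty_or_nonempty with h | h
    · subst h
      rw [P_zero_empty]
      have e : ∀ i, cnt i ∅ = 0 := by intro i; simp [cnt]
      rw [e, e, e, e]
      have hT : T 0 0 0 0 = ([(0, 1)], []) := by decide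
      unfold F
      rw [hT]
      simp [Phi, SLc]
    · rw [P_zero_ne W h]
      have hc := chk_all _ _ _ _ b0 b1 b2 b3
      simp only [chk, Bool.and_eq_true] at hc
      have hm : 0 < cnt 0 W + cnt 1 W + cnt 2 W + cnt 3 W := by
        rw [← card_eq_cnt]
        exact Finset.card_pos.2 h
      unfold F
      rw [Phi_zero_of_wt hm hc.1, Phi_zero_of_wt hm hc.2.1, sub_zero]
  | succ k ih =>
    intro W
    obtain ⟨b0, b1, b2, b3⟩ := hb W
    rw [P_succ, F_succ k _ _ _ _ (fun a' y' x' b' h0 h1 h2 h3 =>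
      chk_all a' y' x' b' (h0.trans b0) (h1.trans b1) (h2.trans b2) (h3.trans b3))]
    classical
    have e1 : ∑ S : {S : Finset (Fin 13) // S ⊆ W ∧ Stable S},
        (MvPolynomial.X k : MvPolynomial ℕ ℤ) ^ S.1.card * P k (W \ S.1) =
        ∑ S ∈ W.powerset.filter (fun S => Stable S),
          (MvPolynomial.X k : MvPolynomial ℕ ℤ) ^ S.card * P k (W \ S) := by
      symm
      apply Finset.sum_subtype
      intro S
      rw [Finset.mem_filter, Finset.mem_powerset]
    rw [e1, Finset.sum_filter]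
    have e2 : ∀ S ∈ W.powerset, (if Stable S then
        (MvPolynomial.X k : MvPolynomial ℕ ℤ) ^ S.card * P k (W \ S) else 0) =
        (fun a' y' x' b' => if stab a' y' x' b' = true then
          (MvPolynomial.X k : MvPolynomial ℕ ℤ) ^ (a' + y' + x' + b') *
            F k (cnt 0 W - a') (cnt 1 W - y') (cnt 2 W - x') (cnt 3 W - b') else 0)
          (cnt 0 S) (cnt 1 S) (cnt 2 S) (cnt 3 S) := by
      intro S hS
      rw [Finset.mem_powerset] at hS
      simp only
      by_cases hst : Stable S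
      · rw [if_pos hst, if_pos ((stable_iff S).1 hst), ih, cnt_sdiff 0 hS, cnt_sdiff 1 hS,
          cnt_sdiff 2 hS, cnt_sdiff 3 hS, ← card_eq_cnt]
      · rw [if_neg hst, if_neg (fun h => hst ((stable_iff S).2 h))]
    rw [Finset.sum_congr rfl e2, sum_by_cnt W (fun a' y' x' b' => if stab a' y' x' b' = true then
          (MvPolynomial.X k : MvPolynomial ℕ ℤ) ^ (a' + y' + x' + b') *
            F k (cnt 0 W - a') (cnt 1 W - y') (cnt 2 W - x') (cnt 3 W - b') else 0)]
    apply Finset.sum_congr rfl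
    intro a' _
    apply Finset.sum_congr rfl
    intro y' _
    apply Finset.sum_congr rfl
    intro x' _
    apply Finset.sum_congr rfl
    intro b' _
    split_ifs
    · rfl
    · rw [mul_zero]

/-- The digits. -/
def dec : ℕ → ℕ → List ℕ
  | 0, _ => []
  | f + 1, n => n % 16 :: dec f (n / 16)

lemma length_dec (f : ℕ) : ∀ n, (dec f n).length = f := by
  induction f with
  | zero => intro n; rfl
  | succ f ih => intro n; simp [dec, ih]

lemma dec_lt (f : ℕ) : ∀ n, ∀ x ∈ dec f n, x < 16 := by
  induction f with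
  | zero => intro n x hx; simp [dec] at hx
  | succ f ih =>
    intro n x hx
    simp only [dec, List.mem_cons] at hx
    rcases hx with rfl | hx
    · omega
    · exact ih _ x hx

/-- Validity test for a code. -/
def validB (n : ℕ) : Bool :=
  Nat.beq (enc (dec 13 n)) n && decide ((dec 13 n).Pairwise (· ≥ ·))

lemma exists_diagram {n : ℕ} (h : validB n = true) : ∃ μ : YoungDiagram, Adm μ ∧ codeY μ = n := by
  simp only [validB, Bool.and_eq_true, decide_eq_true_eq] at h
  obtain ⟨h1, h2⟩ := h
  have h1' := Nat.eq_of_beq_eq_true h1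
  have hs : (dec 13 n).SortedGE := List.sortedGE_iff_pairwise.2 h2
  refine ⟨ofRowLens (dec 13 n) hs, ⟨?_, ?_⟩, ?_⟩
  · rw [rowLen_ofRowLens_getD, List.getD_eq_default]
    rw [length_dec]
  · rw [rowLen_ofRowLens_getD, List.getD_eq_getElem _ _ (by rw [length_dec]; norm_num)]
    exact dec_lt 13 n _ (List.getElem_mem _)
  · have hv : vec 13 (ofRowLens (dec 13 n) hs) = dec 13 n := by
      apply List.ext_getElem
      · rw [length_vec, length_dec]
      · intro i h3 h4
        simp only [vec, List.getElem_map, List.getElem_range]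
        rw [rowLen_ofRowLens_getD, List.getD_eq_getElem _ _ h4]
    rw [codeY, hv, h1']

lemma exists_c (L : FC) (h : ∀ p ∈ L, validB p.1 = true) :
    ∃ c : YoungDiagram →₀ ℕ, ∀ k, c.sum (fun μ a => a • S k μ) = Phi k L := by
  induction L with
  | nil => exact ⟨0, by intro k; simp [Phi]⟩
  | cons p L ih =>
    obtain ⟨c, hc⟩ := ih (fun q hq => h q (List.mem_cons_of_mem _ hq))
    obtain ⟨μ, hadm, hcode⟩ := exists_diagram (h p List.mem_cons_self)
    refine ⟨Finsupp.single μ p.2 + c, ?_⟩
    intro k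
    have h1 : Phi k (p :: L) = (p.2 : MvPolynomial ℕ ℤ) * SLc k p.1 + Phi k L := by
      unfold Phi
      rw [List.map_cons, List.sum_cons]
    rw [Finsupp.sum_add_index' (by intro a; simp) (by intro a b₁ b₂; rw [add_smul]), hc,
      Finsupp.sum_single_index (by simp), S_eq_SLc k μ hadm, hcode, h1, nsmul_eq_mul]

theorem valid_top : (T 4 2 2 5).1.all (fun p => validB p.1) = true := by decide +kernel

theorem neg_top : (T 4 2 2 5).2 = [] := by decide +kernel

/-- The graph polynomial is Schur positive, in any number of variables. -/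
theorem schur_pos : ∃ c : YoungDiagram →₀ ℕ, ∀ k,
    c.sum (fun μ a => a • S k μ) = P k Finset.univ := by
  obtain ⟨c, hc⟩ := exists_c _ (List.all_eq_true.1 valid_top)
  refine ⟨c, ?_⟩
  intro k
  obtain ⟨e0, e1, e2, e3⟩ := cnt_univ
  rw [hc, P_eq_F, e0, e1, e2, e3]
  unfold F
  rw [neg_top]
  simp [Phi]

end Pool.Agent.MP5400b1
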