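import Pool.Agent.MP5400b1.Main

set_option autoImplicit false

/-! The Newton polytope side. -/

namespace Pool.Agent.MP5400b1

/-- Proper colourings with `k` colours. -/
abbrev PC (k : ℕ) : Type := {κ : Fin 13 → Fin k // ∀ u v, G.Adj u v → κ u ≠ κ v}

noncomputable instance (k : ℕ) : Fintype (PC k) := Fintype.ofFinite _

/-- The chromatic polynomial in `k` variables. -/
noncomputable def XG (k : ℕ) : MvPolynomial ℕ ℤ :=
  ∑ᶠ κ : {κ : Fin 13 → Fin k // ∀ u v, G.Adj u v → κ u ≠ κ v},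
            ∏ v, (MvPolynomial.X ((κ.1 v : ℕ)) : MvPolynomial ℕ ℤ)

lemma XG_eq_sum (k : ℕ) : XG k = ∑ κ : PC k, ∏ v, (MvPolynomial.X ((κ.1 v : ℕ)) : MvPolynomial ℕ ℤ) :=
  finsum_eq_sum_of_fintype _

theorem XG_eq_P (k : ℕ) : XG k = P k Finset.univ := by
  rw [XG_eq_sum]
  unfold P
  apply Finset.sum_bij' (fun (κ : PC k) _ => (⟨fun v => (κ.1 v : ℕ), by
      refine ⟨fun v _ => (κ.1 v).2, fun v hv => absurd (Finset.mem_univ v) hv, ?_⟩
      intro u _ v _ huv h
      exact κ.2 u v huv (Fin.ext h)⟩ : Col k Finset.univ))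
    (fun (f : Col k Finset.univ) _ => (⟨fun v => ⟨f.1 v, f.2.1 v (Finset.mem_univ v)⟩, by
      intro u v huv h
      exact f.2.2.2 u (Finset.mem_univ u) v (Finset.mem_univ v) huv
        (by simpa using h)⟩ : PC k))
  case hi => intro κ _; exact Finset.mem_univ _
  case hj => intro f _; exact Finset.mem_univ _
  all_goals
    intro κ _
    rfl

/-- The exponent vector of a colouring. -/
noncomputable def content {k : ℕ} (κ : Fin 13 → Fin k) : ℕ →₀ ℕ :=
  ∑ v, Finsupp.single (κ v : ℕ) 1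

lemma prod_X {k : ℕ} (κ : Fin 13 → Fin k) :
    ∏ v, (MvPolynomial.X ((κ v : ℕ)) : MvPolynomial ℕ ℤ) = MvPolynomial.monomial (content κ) 1 := by
  unfold content
  rw [MvPolynomial.monomial_sum_one]
  rfl

lemma coeff_XG (k : ℕ) (α : ℕ →₀ ℕ) :
    (XG k).coeff α = ∑ κ : PC k, if content κ.1 = α then 1 else 0 := by
  rw [XG_eq_sum, MvPolynomial.coeff_sum]
  apply Finset.sum_congr rfl
  intro κ _
  rw [prod_X, MvPolynomial.coeff_monomial]

lemma mem_support_XG (k : ℕ) (α : ℕ →₀ ℕ) :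
    α ∈ (XG k).support ↔ ∃ κ : PC k, content κ.1 = α := by
  rw [MvPolynomial.mem_support_iff, coeff_XG]
  constructor
  · intro h
    by_contra hne
    push Not at hne
    apply h
    apply Finset.sum_eq_zero
    intro κ _
    rw [if_neg (hne κ)]
  · rintro ⟨κ, hκ⟩
    have h1 : (1 : ℤ) ≤ ∑ κ : PC k, if content κ.1 = α then 1 else 0 := by
      have h2 : (if content κ.1 = α then (1 : ℤ) else 0) ≤
          ∑ κ : PC k, if content κ.1 = α then 1 else 0 := by
        apply Finset.single_le_sum (f := fun κ : PC k => if content κ.1 = α then (1 : ℤ) else 0)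
          _ (Finset.mem_univ κ)
        intro i _
        split_ifs <;> norm_num
      rw [if_pos hκ] at h2
      exact h2
    omega

lemma content_apply {k : ℕ} (κ : Fin 13 → Fin k) (i : ℕ) :
    content κ i = (Finset.univ.filter (fun v => (κ v : ℕ) = i)).card := by
  unfold content
  rw [Finsupp.finsetSum_apply, Finset.card_filter]
  apply Finset.sum_congr rfl
  intro v _
  rw [Finsupp.single_apply]

/-- The exponent vector with three given entries. -/
noncomputable def e3 (a b c : ℕ) : ℕ →₀ ℕ :=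
  Finsupp.single 0 a + Finsupp.single 1 b + Finsupp.single 2 c

lemma e3_apply (a b c i : ℕ) : e3 a b c i = if i = 0 then a else if i = 1 then b else
    if i = 2 then c else 0 := by
  unfold e3
  simp only [Finsupp.add_apply, Finsupp.single_apply]
  by_cases h0 : i = 0
  · subst h0; simp
  · by_cases h1 : i = 1
    · subst h1; simp
    · by_cases h2 : i = 2
      · subst h2; simp
      · simp [h0, h1, h2, Ne.symm h0, Ne.symm h1, Ne.symm h2]

lemma content_eq_e3 (κ : Fin 13 → Fin 3) (a b c : ℕ)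
    (h0 : (Finset.univ.filter (fun v => (κ v : ℕ) = 0)).card = a)
    (h1 : (Finset.univ.filter (fun v => (κ v : ℕ) = 1)).card = b)
    (h2 : (Finset.univ.filter (fun v => (κ v : ℕ) = 2)).card = c) : content κ = e3 a b c := by
  ext i
  rw [content_apply, e3_apply]
  by_cases c0 : i = 0
  · subst c0; simpa using h0
  · by_cases c1 : i = 1
    · subst c1; simpa using h1
    · by_cases c2 : i = 2
      · subst c2; simpa using h2
      · rw [if_neg c0, if_neg c1, if_neg c2, Finset.card_eq_zero, Finset.filter_eq_empty_iff]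
        intro v _
        have := (κ v).2
        omega

lemma mem1 : e3 9 2 2 ∈ (XG 3).support := by
  rw [mem_support_XG]
  refine ⟨⟨![0, 0, 0, 0, 1, 1, 2, 2, 0, 0, 0, 0, 0], ?_⟩, ?_⟩
  · unfold G cls
    decide
  · apply content_eq_e3 <;> decide

lemma mem2 : e3 7 6 0 ∈ (XG 3).support := by
  rw [mem_support_XG]
  refine ⟨⟨![1, 1, 1, 1, 0, 0, 1, 1, 0, 0, 0, 0, 0], ?_⟩, ?_⟩
  · unfold G cls
    decide
  · apply content_eq_e3 <;> decide

/-- Number of vertices of class `i` and colour `c`. -/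
def N (κ : Fin 13 → Fin 3) (i : Fin 4) (c : Fin 3) : ℕ :=
  (Finset.univ.filter (fun v => cls v = i ∧ κ v = c)).card

lemma N_class (κ : Fin 13 → Fin 3) (i : Fin 4) :
    cnt i Finset.univ = N κ i 0 + N κ i 1 + N κ i 2 := by
  have h := Finset.card_eq_sum_card_fiberwise (s := Finset.univ.filter (fun v => cls v = i))
    (t := (Finset.univ : Finset (Fin 3))) (f := κ) (by intro x _; simp)
  unfold cnt
  rw [h, Fin.sum_univ_three]
  simp only [Finset.filter_filter]
  rfl

lemma N_color (κ : Fin 13 → Fin 3) (c : Fin 3) :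
    (Finset.univ.filter (fun v => κ v = c)).card = N κ 0 c + N κ 1 c + N κ 2 c + N κ 3 c := by
  have h := Finset.card_eq_sum_card_fiberwise (s := Finset.univ.filter (fun v => κ v = c))
    (t := (Finset.univ : Finset (Fin 4))) (f := cls) (by intro x _; simp)
  rw [h, Fin.sum_univ_four]
  unfold N
  simp only [Finset.filter_filter, and_comm]

lemma N_adj {κ : Fin 13 → Fin 3} (hκ : ∀ u v, G.Adj u v → κ u ≠ κ v) (i j : Fin 4)
    (hij : i.val + 1 = j.val) (c : Fin 3) : N κ i c = 0 ∨ N κ j c = 0 := by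
  by_contra hcon
  push Not at hcon
  obtain ⟨h1, h2⟩ := hcon
  obtain ⟨u, hu⟩ := Finset.card_ne_zero.1 h1
  obtain ⟨v, hv⟩ := Finset.card_ne_zero.1 h2
  rw [Finset.mem_filter] at hu hv
  apply hκ u v
  · left
    rw [hu.2.1, hv.2.1]
    exact hij
  · rw [hu.2.2, hv.2.2]

lemma notMem : e3 8 4 1 ∉ (XG 3).support := by
  rw [mem_support_XG]
  rintro ⟨⟨κ, hκ⟩, hc⟩
  simp only at hc
  have c0 : (Finset.univ.filter (fun v => κ v = 0)).card = 8 := by
    have := DFunLike.congr_fun hc 0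
    rw [content_apply, e3_apply, if_pos rfl] at this
    rw [← this]
    congr 1
    ext v
    simp only [Finset.mem_filter, Finset.mem_univ, true_and]
    exact Fin.ext_iff
  have c1 : (Finset.univ.filter (fun v => κ v = 1)).card = 4 := by
    have := DFunLike.congr_fun hc 1
    rw [content_apply, e3_apply, if_neg (by norm_num), if_pos rfl] at this
    rw [← this]
    congr 1
    ext v
    simp only [Finset.mem_filter, Finset.mem_univ, true_and]
    exact Fin.ext_iff
  have c2 : (Finset.univ.filter (fun v => κ v = 2)).card = 1 := by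
    have := DFunLike.congr_fun hc 2
    rw [content_apply, e3_apply, if_neg (by norm_num), if_neg (by norm_num), if_pos rfl] at this
    rw [← this]
    congr 1
    ext v
    simp only [Finset.mem_filter, Finset.mem_univ, true_and]
    exact Fin.ext_iff
  rw [N_color] at c0 c1 c2
  obtain ⟨e0, e1, e2, e3⟩ := cnt_univ
  rw [N_class κ] at e0 e1 e2 e3
  have a00 := N_adj hκ 0 1 rfl 0
  have a01 := N_adj hκ 0 1 rfl 1
  have a02 := N_adj hκ 0 1 rfl 2
  have a10 := N_adj hκ 1 2 rfl 0
  have a11 := N_adj hκ 1 2 rfl 1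
  have a12 := N_adj hκ 1 2 rfl 2
  have a20 := N_adj hκ 2 3 rfl 0
  have a21 := N_adj hκ 2 3 rfl 1
  have a22 := N_adj hκ 2 3 rfl 2
  generalize N κ 0 0 = n00 at *
  generalize N κ 0 1 = n01 at *
  generalize N κ 0 2 = n02 at *
  generalize N κ 1 0 = n10 at *
  generalize N κ 1 1 = n11 at *
  generalize N κ 1 2 = n12 at *
  generalize N κ 2 0 = n20 at *
  generalize N κ 2 1 = n21 at *
  generalize N κ 2 2 = n22 at *
  generalize N κ 3 0 = n30 at *
  generalize N κ 3 1 = n31 at *
  generalize N κ 3 2 = n32 at *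
  clear hc hκ
  omega

lemma hull : (fun i : ℕ => ((e3 8 4 1 i : ℕ) : ℝ)) ∈ convexHull ℝ
    ((fun β : ℕ →₀ ℕ => (fun i : ℕ => (β i : ℝ))) '' ((XG 3).support : Set (ℕ →₀ ℕ))) := by
  have h1 : (fun i : ℕ => ((e3 9 2 2 i : ℕ) : ℝ)) ∈
      ((fun β : ℕ →₀ ℕ => (fun i : ℕ => (β i : ℝ))) '' ((XG 3).support : Set (ℕ →₀ ℕ))) :=
    ⟨e3 9 2 2, mem1, rfl⟩
  have h2 : (fun i : ℕ => ((e3 7 6 0 i : ℕ) : ℝ)) ∈
      ((fun β : ℕ →₀ ℕ => (fun i : ℕ => (β i : ℝ))) '' ((XG 3).support : Set (ℕ →₀ ℕ))) :=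
    ⟨e3 7 6 0, mem2, rfl⟩
  have hmid := (convex_convexHull ℝ ((fun β : ℕ →₀ ℕ => (fun i : ℕ => (β i : ℝ))) ''
      ((XG 3).support : Set (ℕ →₀ ℕ)))) (subset_convexHull ℝ _ h1)
            (subset_convexHull ℝ _ h2) (show (0 : ℝ) ≤ 1 / 2 by norm_num)
            (show (0 : ℝ) ≤ 1 / 2 by norm_num) (by norm_num)
  convert hmid using 1
  funext i
  simp only [Pi.add_apply, Pi.smul_apply, smul_eq_mul, e3_apply]
  by_cases h0 : i = 0
  · subst h0; norm_num
  · by_cases h1 : i = 1
    · subst h1; norm_num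
    · by_cases h2 : i = 2
      · subst h2; norm_num
      · simp [h0, h1, h2]

end Pool.Agent.MP5400b1
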