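import Mathlib

set_option autoImplicit false

/-! Branching rule for Schur polynomials defined through Mathlib's semistandard tableaux. -/

namespace Pool.Agent.MP5400b1

open YoungDiagram

/-- Tableaux of shape `μ` with entries `< k`. -/
abbrev TabK (k : ℕ) (μ : YoungDiagram) : Type :=
  {T : SemistandardYoungTableau μ // ∀ p ∈ μ.cells, T p.1 p.2 < k}

instance finTabK (k : ℕ) (μ : YoungDiagram) : Finite (TabK k μ) := by
  apply Finite.of_injective (β := μ.cells → Fin k)
    (fun (T : TabK k μ) => (fun (p : μ.cells) => (⟨T.1 p.1.1 p.1.2, T.2 p.1 p.2⟩ : Fin k)))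
  intro T T' h
  apply Subtype.ext
  apply SemistandardYoungTableau.ext
  intro i j
  by_cases hm : (i, j) ∈ μ
  · have h2 := congrFun h ⟨(i, j), (mem_cells _).2 hm⟩
    simpa using h2
  · rw [T.1.zeros hm, T'.1.zeros hm]

noncomputable instance fintypeTabK (k : ℕ) (μ : YoungDiagram) : Fintype (TabK k μ) :=
  Fintype.ofFinite _

/-- Weight of a tableau. -/
noncomputable def wtT {k : ℕ} {μ : YoungDiagram} (T : TabK k μ) : MvPolynomial ℕ ℤ :=
  ∏ p ∈ μ.cells, (MvPolynomial.X (T.1 p.1 p.2) : MvPolynomial ℕ ℤ)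

/-- Schur polynomial in `k` variables. -/
noncomputable def S (k : ℕ) (μ : YoungDiagram) : MvPolynomial ℕ ℤ := ∑ T : TabK k μ, wtT T

lemma S_eq_finsum (k : ℕ) (μ : YoungDiagram) :
    ∑ᶠ T : {T : SemistandardYoungTableau μ // ∀ p ∈ μ.cells, T p.1 p.2 < k},
            ∏ p ∈ μ.cells, (MvPolynomial.X (T.1 p.1 p.2) : MvPolynomial ℕ ℤ) = S k μ :=
  finsum_eq_sum_of_fintype _

/-- `μ/ν` is a horizontal strip. -/
def Strip (μ ν : YoungDiagram) : Prop := ν ≤ μ ∧ ∀ i, μ.rowLen (i + 1) ≤ ν.rowLen i

lemma le_iff_rowLen {μ ν : YoungDiagram} : ν ≤ μ ↔ ∀ i, ν.rowLen i ≤ μ.rowLen i := by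
  constructor
  · intro h i
    apply le_of_forall_lt
    intro j hj
    exact mem_iff_lt_rowLen.1 (h (mem_iff_lt_rowLen.2 hj))
  · intro h c hc
    exact mem_iff_lt_rowLen.2 (lt_of_lt_of_le (mem_iff_lt_rowLen.1 hc) (h c.1))

instance finStrip (μ : YoungDiagram) : Finite {ν // Strip μ ν} := by
  apply Finite.of_injective (β := (μ.cells.powerset : Finset (Finset (ℕ × ℕ))))
    (fun (ν : {ν // Strip μ ν}) => ⟨ν.1.cells, by
      rw [Finset.mem_powerset]; exact cells_subset_iff.2 ν.2.1⟩)
  intro ν ν' h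
  apply Subtype.ext
  have h2 : ν.1.cells = ν'.1.cells := by simpa using h
  exact YoungDiagram.ext h2

noncomputable instance fintypeStrip (μ : YoungDiagram) : Fintype {ν // Strip μ ν} :=
  Fintype.ofFinite _

/-- Extend a tableau of shape `ν` by entries `k` to the shape `μ`. -/
def up {k : ℕ} {μ ν : YoungDiagram} (h : Strip μ ν) (T : TabK k ν) : TabK (k + 1) μ :=
  ⟨{ entry := fun i j => if (i, j) ∈ ν then T.1 i j else if (i, j) ∈ μ then k else 0
     row_weak' := by
      intro i j1 j2 hj hm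
      by_cases h2 : (i, j2) ∈ ν
      · have h1 : (i, j1) ∈ ν := up_left_mem ν le_rfl hj.le h2
        simp only [h1, h2, if_true]
        exact T.1.row_weak hj h2
      · simp only [h2, hm, if_true, if_false]
        by_cases h1 : (i, j1) ∈ ν
        · simp only [h1, if_true]
          exact (T.2 _ ((mem_cells _).2 h1)).le
        · simp only [h1, if_false]
          split_ifs <;> omega
     col_strict' := by
      intro i1 i2 j hi hm
      by_cases h2 : (i2, j) ∈ ν
      · have h1 : (i1, j) ∈ ν := up_left_mem ν hi.le le_rfl h2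
        simp only [h1, h2, if_true]
        exact T.1.col_strict hi h2
      · have h1 : (i1, j) ∈ ν := by
          rw [mem_iff_lt_rowLen]
          apply lt_of_lt_of_le _ (h.2 i1)
          rw [← mem_iff_lt_rowLen]
          exact up_left_mem μ hi le_rfl hm
        simp only [h1, h2, hm, if_true, if_false]
        exact T.2 _ ((mem_cells _).2 h1)
     zeros' := by
      intro i j hm
      have h2 : (i, j) ∉ ν := fun h3 => hm (h.1 h3)
      simp only [h2, hm, if_false] },
   by
    intro p hp
    have hp' : (p.1, p.2) ∈ μ := (mem_cells _).1 hp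
    change (if (p.1, p.2) ∈ ν then T.1 p.1 p.2 else if (p.1, p.2) ∈ μ then k else 0) < k + 1
    by_cases h2 : (p.1, p.2) ∈ ν
    · simp only [h2, if_true]
      exact Nat.lt_succ_of_lt (T.2 p ((mem_cells _).2 h2))
    · simp only [h2, hp', if_true, if_false]
      exact Nat.lt_succ_self k⟩

lemma up_apply {k : ℕ} {μ ν : YoungDiagram} (h : Strip μ ν) (T : TabK k ν) (i j : ℕ) :
    (up h T).1 i j = if (i, j) ∈ ν then T.1 i j else if (i, j) ∈ μ then k else 0 := rfl

lemma up_lt_iff {k : ℕ} {μ ν : YoungDiagram} (h : Strip μ ν) (T : TabK k ν) (i j : ℕ)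
    (hm : (i, j) ∈ μ) : (up h T).1 i j < k ↔ (i, j) ∈ ν := by
  rw [up_apply]
  by_cases h2 : (i, j) ∈ ν
  · simp only [h2, if_true, iff_true]
    exact T.2 _ ((mem_cells _).2 h2)
  · simp [h2, hm]

/-- The cells with entry `< k`. -/
def low {k : ℕ} {μ : YoungDiagram} (T : TabK (k + 1) μ) : YoungDiagram where
  cells := μ.cells.filter (fun p => T.1 p.1 p.2 < k)
  isLowerSet := by
    intro p q hqp hp
    rw [Finset.mem_coe, Finset.mem_filter, mem_cells] at hp ⊢
    have hq : q ∈ μ := up_left_mem μ hqp.1 hqp.2 hp.1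
    refine ⟨hq, lt_of_le_of_lt ?_ hp.2⟩
    have h1 : T.1 q.1 q.2 ≤ T.1 q.1 p.2 :=
      T.1.row_weak_of_le hqp.2 (up_left_mem μ hqp.1 le_rfl hp.1)
    have h2 : T.1 q.1 p.2 ≤ T.1 p.1 p.2 := T.1.col_weak hqp.1 hp.1
    exact h1.trans h2

lemma mem_low {k : ℕ} {μ : YoungDiagram} (T : TabK (k + 1) μ) (i j : ℕ) :
    (i, j) ∈ low T ↔ (i, j) ∈ μ ∧ T.1 i j < k := by
  rw [← mem_cells]
  simp [low]

lemma strip_low {k : ℕ} {μ : YoungDiagram} (T : TabK (k + 1) μ) : Strip μ (low T) := by
  constructor
  · rintro ⟨i, j⟩ h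
    exact ((mem_low T i j).1 h).1
  · intro i
    apply le_of_forall_lt
    intro j hj
    rw [← mem_iff_lt_rowLen] at hj ⊢
    rw [mem_low]
    refine ⟨up_left_mem μ (Nat.le_succ i) le_rfl hj, ?_⟩
    have h1 : T.1 i j < T.1 (i + 1) j := T.1.col_strict (Nat.lt_succ_self i) hj
    have h2 : T.1 (i + 1) j < k + 1 := T.2 (i + 1, j) ((mem_cells _).2 hj)
    omega

/-- The restriction. -/
def restr {k : ℕ} {μ : YoungDiagram} (T : TabK (k + 1) μ) : TabK k (low T) :=
  ⟨{ entry := fun i j => if (i, j) ∈ low T then T.1 i j else 0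
     row_weak' := by
      intro i j1 j2 hj hm
      have h1 : (i, j1) ∈ low T := up_left_mem _ le_rfl hj.le hm
      simp only [h1, hm, if_true]
      exact T.1.row_weak hj ((mem_low T i j2).1 hm).1
     col_strict' := by
      intro i1 i2 j hi hm
      have h1 : (i1, j) ∈ low T := up_left_mem _ hi.le le_rfl hm
      simp only [h1, hm, if_true]
      exact T.1.col_strict hi ((mem_low T i2 j).1 hm).1
     zeros' := by
      intro i j hm
      simp only [hm, if_false] },
   by
    intro p hp
    have hp' : (p.1, p.2) ∈ low T := (mem_cells _).1 hp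
    change (if (p.1, p.2) ∈ low T then T.1 p.1 p.2 else 0) < k
    simp only [hp', if_true]
    exact ((mem_low T p.1 p.2).1 hp').2⟩

lemma up_restr {k : ℕ} {μ : YoungDiagram} (T : TabK (k + 1) μ) :
    up (strip_low T) (restr T) = T := by
  apply Subtype.ext
  apply SemistandardYoungTableau.ext
  intro i j
  rw [up_apply]
  by_cases h : (i, j) ∈ low T
  · simp only [h, if_true]
    change (if (i, j) ∈ low T then T.1 i j else 0) = _
    simp only [h, if_true]
  · simp only [h, if_false]
    by_cases hm : (i, j) ∈ μ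
    · simp only [hm, if_true]
      rw [mem_low] at h
      have h2 : T.1 i j < k + 1 := T.2 (i, j) ((mem_cells _).2 hm)
      have h3 : ¬ T.1 i j < k := fun h4 => h ⟨hm, h4⟩
      omega
    · simp only [hm, if_false]
      exact (T.1.zeros hm).symm

/-- The gluing map. -/
def upS {k : ℕ} {μ : YoungDiagram} (x : Σ ν : {ν // Strip μ ν}, TabK k ν.1) : TabK (k + 1) μ :=
  up x.1.2 x.2

lemma upS_bij {k : ℕ} {μ : YoungDiagram} : Function.Bijective (upS (k := k) (μ := μ)) := by
  constructor
  · rintro ⟨⟨ν, hν⟩, T⟩ ⟨⟨ν', hν'⟩, T'⟩ h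
    change up hν T = up hν' T' at h
    have hcells : ν = ν' := by
      apply SetLike.ext
      rintro ⟨i, j⟩
      constructor
      · intro hm
        have hmu : (i, j) ∈ μ := hν.1 hm
        have h1 := (up_lt_iff hν T i j hmu).2 hm
        rw [h] at h1
        exact (up_lt_iff hν' T' i j hmu).1 h1
      · intro hm
        have hmu : (i, j) ∈ μ := hν'.1 hm
        have h1 := (up_lt_iff hν' T' i j hmu).2 hm
        rw [← h] at h1
        exact (up_lt_iff hν T i j hmu).1 h1
    subst hcells
    have hT : T = T' := by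
      apply Subtype.ext
      apply SemistandardYoungTableau.ext
      intro i j
      by_cases hm : (i, j) ∈ ν
      · have h1 : (up hν T).1 i j = (up hν' T').1 i j := by rw [h]
        rw [up_apply, up_apply] at h1
        simpa only [hm, if_true] using h1
      · rw [T.1.zeros hm, T'.1.zeros hm]
    rw [hT]
  · intro T
    exact ⟨⟨⟨low T, strip_low T⟩, restr T⟩, up_restr T⟩

lemma wt_up {k : ℕ} {μ ν : YoungDiagram} (h : Strip μ ν) (T : TabK k ν) :
    wtT (up h T) = (MvPolynomial.X k) ^ (μ.cells.card - ν.cells.card) * wtT T := by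
  unfold wtT
  have hsub : ν.cells ⊆ μ.cells := cells_subset_iff.2 h.1
  rw [← Finset.prod_sdiff hsub]
  congr 1
  · rw [← Finset.card_sdiff_of_subset hsub]
    apply Finset.prod_eq_pow_card
    intro p hp
    rw [Finset.mem_sdiff, mem_cells, mem_cells] at hp
    rw [up_apply]
    have h1 : (p.1, p.2) ∈ μ := hp.1
    have h2 : (p.1, p.2) ∉ ν := hp.2
    simp only [h1, h2, if_true, if_false]
  · apply Finset.prod_congr rfl
    intro p hp
    rw [mem_cells] at hp
    rw [up_apply]
    have h1 : (p.1, p.2) ∈ ν := hp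
    simp only [h1, if_true]

/-- Branching rule. -/
theorem S_succ (k : ℕ) (μ : YoungDiagram) :
    S (k + 1) μ = ∑ ν : {ν // Strip μ ν},
      (MvPolynomial.X k) ^ (μ.cells.card - ν.1.cells.card) * S k ν.1 := by
  unfold S
  rw [← (upS_bij (k := k) (μ := μ)).sum_comp, Fintype.sum_sigma]
  apply Finset.sum_congr rfl
  intro ν _
  rw [Finset.mul_sum]
  apply Finset.sum_congr rfl
  intro T _
  exact wt_up ν.2 T

lemma S_zero_bot : S 0 ⊥ = 1 := by
  unfold S
  have hu : Unique (TabK 0 ⊥) :=
    { default := ⟨default, by intro p hp; simp at hp⟩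
      uniq := by
        intro T
        apply Subtype.ext
        apply SemistandardYoungTableau.ext
        intro i j
        rw [T.1.zeros (notMem_bot _)]
        rw [SemistandardYoungTableau.zeros _ (notMem_bot _)] }
  rw [Fintype.sum_unique]
  simp [wtT]

lemma S_zero_ne (μ : YoungDiagram) (h : μ ≠ ⊥) : S 0 μ = 0 := by
  unfold S
  have he : IsEmpty (TabK 0 μ) := by
    constructor
    intro T
    apply h
    apply YoungDiagram.ext
    rw [cells_bot, Finset.eq_empty_iff_forall_notMem]
    intro p hp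
    exact absurd (T.2 p hp) (Nat.not_lt_zero _)
  exact Fintype.sum_empty _

end Pool.Agent.MP5400b1
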