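import Pool.Agent.MP5400b1.Check

set_option autoImplicit false

/-! Soundness of the finite check. -/

namespace Pool.Agent.MP5400b1

/-- Evaluation of a formal combination in `k` variables. -/
noncomputable def Phi (k : ℕ) (L : FC) : MvPolynomial ℕ ℤ :=
  (L.map (fun p => (p.2 : MvPolynomial ℕ ℤ) * SLc k p.1)).sum

/-- Homogenised evaluation. -/
noncomputable def Psi (k m : ℕ) (L : FC) : MvPolynomial ℕ ℤ :=
  (L.map (fun p => (p.2 : MvPolynomial ℕ ℤ) *
    ((MvPolynomial.X k) ^ (m - wtC 13 p.1) * SLc k p.1))).sum

lemma Psi_append (k m : ℕ) (a b : FC) : Psi k m (a ++ b) = Psi k m a + Psi k m b := by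
  simp [Psi]

lemma Psi_cons (k m : ℕ) (p : ℕ × ℕ) (b : FC) : Psi k m (p :: b) = (p.2 : MvPolynomial ℕ ℤ) *
    ((MvPolynomial.X k) ^ (m - wtC 13 p.1) * SLc k p.1) + Psi k m b := by
  simp [Psi]

lemma Psi_nil (k m : ℕ) : Psi k m [] = 0 := by
  simp [Psi]

lemma Psi_mg (k m : ℕ) (f : ℕ) : ∀ a b : FC, Psi k m (mg f a b) = Psi k m a + Psi k m b := by
  induction f with
  | zero => intro a b; rw [mg, Psi_append]
  | succ f ih =>
    intro a b
    cases a with
    | nil => simp [mg, Psi_nil]
    | cons p a =>
      cases b with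
      | nil => simp [mg, Psi_nil]
      | cons q b =>
        rw [mg]
        cases h1 : Nat.blt p.1 q.1 with
        | true =>
          simp only [cond_true]
          rw [Psi_cons, ih, Psi_cons k m p a]
          ring
        | false =>
          cases h2 : Nat.blt q.1 p.1 with
          | true =>
            simp only [cond_true, cond_false]
            rw [Psi_cons, ih, Psi_cons k m q b]
            ring
          | false =>
            simp only [cond_false]
            have h3 : p.1 = q.1 := by
              have h1' : ¬ (p.1 < q.1) := by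
                intro h
                have : Nat.blt p.1 q.1 = true := by rw [Nat.blt_eq]; exact h
                rw [h1] at this
                exact absurd this (by decide)
              have h2' : ¬ (q.1 < p.1) := by
                intro h
                have : Nat.blt q.1 p.1 = true := by rw [Nat.blt_eq]; exact h
                rw [h2] at this
                exact absurd this (by decide)
              omega
            rw [Psi_cons, ih, Psi_cons k m p a, Psi_cons k m q b]
            simp only [h3]
            push_cast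
            ring

lemma Psi_flatten (k m : ℕ) (l : List FC) : Psi k m l.flatten = (l.map (Psi k m)).sum := by
  induction l with
  | nil => simp [Psi_nil]
  | cons a l ih => simp [Psi_append, ih]

lemma Psi_pass (k m : ℕ) : ∀ l : List FC, ((mgPass l).map (Psi k m)).sum = (l.map (Psi k m)).sum
  | [] => by simp [mgPass]
  | [a] => by simp [mgPass]
  | a :: b :: l => by
    have ih := Psi_pass k m l
    simp only [mgPass, List.map_cons, List.sum_cons, Psi_mg, ih]
    ring

lemma Psi_mgAll (k m : ℕ) (f : ℕ) : ∀ l : List FC,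
    Psi k m (mgAll f l) = (l.map (Psi k m)).sum := by
  induction f with
  | zero => intro l; rw [mgAll, Psi_flatten]
  | succ f ih =>
    intro l
    match l with
    | [] => simp [mgAll, Psi_nil]
    | [a] => simp [mgAll]
    | a :: b :: l =>
      rw [mgAll, ih, Psi_pass]

lemma Psi_scl (k m c : ℕ) (L : FC) :
    Psi k m (scl c L) = (c : MvPolynomial ℕ ℤ) * Psi k m L := by
  unfold Psi scl
  rw [List.map_map, ← List.sum_map_mul_left]
  refine congrArg List.sum (List.map_congr_left ?_)
  intro p _
  simp only [Function.comp]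
  push_cast
  ring

lemma wtOK_mem {m : ℕ} {L : FC} (h : wtOK m L = true) : ∀ p ∈ L, wtC 13 p.1 = m := by
  intro p hp
  unfold wtOK at h
  rw [List.all_eq_true] at h
  exact Nat.eq_of_beq_eq_true (h p hp)

lemma Psi_wt {k m m' : ℕ} {L : FC} (h : wtOK m' L = true) :
    Psi k m L = (MvPolynomial.X k) ^ (m - m') * Phi k L := by
  unfold Psi Phi
  rw [← List.sum_map_mul_left]
  refine congrArg List.sum (List.map_congr_left ?_)
  intro p hp
  rw [wtOK_mem h p hp]
  ring

lemma Psi_strips {k m : ℕ} {L : FC} (h : wtOK m L = true) :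
    ((fcStrips L).map (Psi k m)).sum = Phi (k + 1) L := by
  unfold fcStrips Phi
  rw [List.map_map]
  refine congrArg List.sum (List.map_congr_left ?_)
  intro p hp
  simp only [Function.comp, Psi, List.map_map]
  have h2 : SLc (k + 1) p.1 = ((stripsC 13 p.1).map (fun n' =>
      (MvPolynomial.X k : MvPolynomial ℕ ℤ) ^ (wtC 13 p.1 - wtC 13 n') * SLc k n')).sum := rfl
  rw [h2, ← List.sum_map_mul_left]
  refine congrArg List.sum (List.map_congr_left ?_)
  intro n _
  simp only [Function.comp]
  rw [wtOK_mem h p hp]

lemma eqFC_sound : ∀ a b : FC, eqFC a b = true → a = b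
  | [], [], _ => rfl
  | p :: a, q :: b, h => by
    simp only [eqFC, Bool.and_eq_true] at h
    obtain ⟨h1, h2, h3⟩ := h
    have e1 := Nat.eq_of_beq_eq_true h1
    have e2 := Nat.eq_of_beq_eq_true h2
    rw [eqFC_sound a b h3, Prod.ext e1 e2]
  | [], q :: b, h => by simp [eqFC] at h
  | p :: a, [], h => by simp [eqFC] at h

lemma sum_range_list {M : Type*} [AddCommMonoid M] (n : ℕ) (h : ℕ → M) :
    ((List.range n).map h).sum = ∑ i ∈ Finset.range n, h i := by
  induction n with
  | zero => simp
  | succ n ih => rw [List.range_succ, Finset.sum_range_succ]; simp [ih]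

lemma sum_flatMap_map {α : Type*} {M : Type*} [AddCommMonoid M] (l : List α)
    (f : α → List FC) (g : FC → M) :
    ((l.flatMap f).map g).sum = (l.map (fun a => ((f a).map g).sum)).sum := by
  induction l with
  | nil => simp
  | cons a l ih => simp [ih]

lemma Psi_rhs (sel : FC × FC → FC) (k a y x b : ℕ)
    (hw : ∀ a' y' x' b', a' ≤ a → y' ≤ y → x' ≤ x → b' ≤ b →
      wtOK (a' + y' + x' + b') (sel (T a' y' x' b')) = true) :
    ((rhs sel a y x b).map (Psi k (a + y + x + b))).sum =
      ∑ a' ∈ Finset.range (a + 1), ∑ y' ∈ Finset.range (y + 1), ∑ x' ∈ Finset.range (x + 1),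
        ∑ b' ∈ Finset.range (b + 1),
        if stab a' y' x' b' = true then
          ((a.choose a' * y.choose y' * x.choose x' * b.choose b' : ℕ) : MvPolynomial ℕ ℤ) *
          ((MvPolynomial.X k) ^ (a' + y' + x' + b') *
            Phi k (sel (T (a - a') (y - y') (x - x') (b - b')))) else 0 := by
  unfold rhs
  rw [sum_flatMap_map, sum_range_list]
  apply Finset.sum_congr rfl
  intro a' ha'
  rw [sum_flatMap_map, sum_range_list]
  apply Finset.sum_congr rfl
  intro y' hy'
  rw [sum_flatMap_map, sum_range_list]
  apply Finset.sum_congr rfl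
  intro x' hx'
  rw [sum_flatMap_map, sum_range_list]
  apply Finset.sum_congr rfl
  intro b' hb'
  rw [Finset.mem_range] at ha' hy' hx' hb'
  cases hs : stab a' y' x' b' with
  | false => simp
  | true =>
    simp only [cond_true, List.map_cons, List.map_nil, List.sum_cons, List.sum_nil, add_zero,
      if_true]
    rw [Psi_scl, Psi_wt (hw (a - a') (y - y') (x - x') (b - b') (by omega) (by omega) (by omega)
      (by omega))]
    have : a + y + x + b - (a - a' + (y - y') + (x - x') + (b - b')) = a' + y' + x' + b' := by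
      omega
    rw [this]

/-- The polynomial attached to a state. -/
noncomputable def F (k a y x b : ℕ) : MvPolynomial ℕ ℤ :=
  Phi k (T a y x b).1 - Phi k (T a y x b).2

theorem F_succ (k a y x b : ℕ)
    (hc : ∀ a' y' x' b', a' ≤ a → y' ≤ y → x' ≤ x → b' ≤ b → chk a' y' x' b' = true) :
    F (k + 1) a y x b =
      ∑ a' ∈ Finset.range (a + 1), ∑ y' ∈ Finset.range (y + 1), ∑ x' ∈ Finset.range (x + 1),
        ∑ b' ∈ Finset.range (b + 1),
        if stab a' y' x' b' = true then
          ((a.choose a' * y.choose y' * x.choose x' * b.choose b' : ℕ) : MvPolynomial ℕ ℤ) *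
          ((MvPolynomial.X k) ^ (a' + y' + x' + b') *
            F k (a - a') (y - y') (x - x') (b - b')) else 0 := by
  have hw1 : ∀ a' y' x' b', a' ≤ a → y' ≤ y → x' ≤ x → b' ≤ b →
      wtOK (a' + y' + x' + b') (T a' y' x' b').1 = true := by
    intro a' y' x' b' h1 h2 h3 h4
    have := hc a' y' x' b' h1 h2 h3 h4
    simp only [chk, Bool.and_eq_true] at this
    exact this.1
  have hw2 : ∀ a' y' x' b', a' ≤ a → y' ≤ y → x' ≤ x → b' ≤ b →
      wtOK (a' + y' + x' + b') (T a' y' x' b').2 = true := by
    intro a' y' x' b' h1 h2 h3 h4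
    have := hc a' y' x' b' h1 h2 h3 h4
    simp only [chk, Bool.and_eq_true] at this
    exact this.2.1
  have h0 := hc a y x b le_rfl le_rfl le_rfl le_rfl
  simp only [chk, Bool.and_eq_true] at h0
  have h1 := eqFC_sound _ _ h0.2.2
  have h2 := congrArg (Psi k (a + y + x + b)) h1
  rw [Psi_mg, Psi_mg, Psi_mgAll, Psi_mgAll, Psi_mgAll, Psi_mgAll, Psi_strips h0.1,
    Psi_strips h0.2.1, Psi_rhs Prod.fst k a y x b hw1, Psi_rhs Prod.snd k a y x b hw2] at h2
  unfold F
  have h3 : Phi (k + 1) (T a y x b).1 - Phi (k + 1) (T a y x b).2 =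
    (∑ a' ∈ Finset.range (a + 1), ∑ y' ∈ Finset.range (y + 1), ∑ x' ∈ Finset.range (x + 1),
        ∑ b' ∈ Finset.range (b + 1),
        if stab a' y' x' b' = true then
          ((a.choose a' * y.choose y' * x.choose x' * b.choose b' : ℕ) : MvPolynomial ℕ ℤ) *
          ((MvPolynomial.X k) ^ (a' + y' + x' + b') *
            Phi k (T (a - a') (y - y') (x - x') (b - b')).1) else 0) -
    (∑ a' ∈ Finset.range (a + 1), ∑ y' ∈ Finset.range (y + 1), ∑ x' ∈ Finset.range (x + 1),
        ∑ b' ∈ Finset.range (b + 1),
        if stab a' y' x' b' = true then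
          ((a.choose a' * y.choose y' * x.choose x' * b.choose b' : ℕ) : MvPolynomial ℕ ℤ) *
          ((MvPolynomial.X k) ^ (a' + y' + x' + b') *
            Phi k (T (a - a') (y - y') (x - x') (b - b')).2) else 0) := by
    linear_combination h2
  rw [h3]
  simp only [← Finset.sum_sub_distrib]
  apply Finset.sum_congr rfl
  intro a' _
  apply Finset.sum_congr rfl
  intro y' _
  apply Finset.sum_congr rfl
  intro x' _
  apply Finset.sum_congr rfl
  intro b' _
  split_ifs
  · ring
  · ring

end Pool.Agent.MP5400b1
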